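import Mathlib
import Pool.Agent.H97R2.BP.Defs
import Pool.Agent.H97R2.BP.Defs2

open scoped ComplexOrder InnerProductSpace ComplexConjugate TensorProduct
open Finset H759R2.Kad H710R2.DP

noncomputable section

namespace H97R2.BP

namespace ZZ89

section basic

variable {H : Type} [NormedAddCommGroup H] [InnerProductSpace ℂ H]

theorem inner_C (C : H ≃ₗᵢ⋆[ℂ] H) (x y : H) : ⟪C x, C y⟫_ℂ = ⟪y, x⟫_ℂ := by
  rw [inner_eq_sum_norm_sq_div_four (𝕜 := ℂ) (C x) (C y),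
    inner_eq_sum_norm_sq_div_four (𝕜 := ℂ) y x]
  have h1 : ‖C x + C y‖ = ‖y + x‖ := by rw [← map_add, LinearIsometryEquiv.norm_map, add_comm]
  have h2 : ‖C x - C y‖ = ‖y - x‖ := by rw [← map_sub, LinearIsometryEquiv.norm_map, norm_sub_rev]
  have h3 : ‖C x - (RCLike.I : ℂ) • C y‖ = ‖y - (RCLike.I : ℂ) • x‖ := by
    have e : C x - (RCLike.I : ℂ) • C y = C (x + (RCLike.I : ℂ) • y) := by
      rw [map_add, LinearIsometryEquiv.map_smulₛₗ]
      simp [sub_eq_add_neg]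
    have e2 : y - (RCLike.I : ℂ) • x = (-(RCLike.I : ℂ)) • (x + (RCLike.I : ℂ) • y) := by
      rw [smul_add, smul_smul]
      simp [sub_eq_add_neg, add_comm]
    rw [e, LinearIsometryEquiv.norm_map, e2, norm_smul]
    simp
  have h4 : ‖C x + (RCLike.I : ℂ) • C y‖ = ‖y + (RCLike.I : ℂ) • x‖ := by
    have e : C x + (RCLike.I : ℂ) • C y = C (x - (RCLike.I : ℂ) • y) := by
      rw [map_sub, LinearIsometryEquiv.map_smulₛₗ]
      simp
    have e2 : y + (RCLike.I : ℂ) • x = ((RCLike.I : ℂ)) • (x - (RCLike.I : ℂ) • y) := by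
      rw [smul_sub, smul_smul]
      simp [add_comm]
    rw [e, LinearIsometryEquiv.norm_map, e2, norm_smul]
    simp
  rw [h1, h2, h3, h4]

theorem cj_mul {C : H ≃ₗᵢ⋆[ℂ] H} (hC : IsConj C) (a b : H →L[ℂ] H) :
    cj C (a * b) = cj C a * cj C b := by
  ext x
  show C (a (b (C x))) = C (a (C (C (b (C x)))))
  rw [hC]

theorem cj_one {C : H ≃ₗᵢ⋆[ℂ] H} (hC : IsConj C) : cj C (1 : H →L[ℂ] H) = 1 := by
  ext x
  show C (C x) = x
  rw [hC]

theorem norm_cj (C : H ≃ₗᵢ⋆[ℂ] H) (a : H →L[ℂ] H) : ‖cj C a‖ ≤ ‖a‖ :=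
  LinearMap.mkContinuous_norm_le _ (norm_nonneg _) _

theorem norm_tn (C : H ≃ₗᵢ⋆[ℂ] H) (a b : H →L[ℂ] H) : ‖tn C a b‖ ≤ ‖a‖ * ‖b‖ :=
  (TensorProduct.norm_mapL_le _ _).trans
    (mul_le_mul_of_nonneg_left (norm_cj C b) (norm_nonneg _))

theorem tn_mul {C : H ≃ₗᵢ⋆[ℂ] H} (hC : IsConj C) (a b a' b' : H →L[ℂ] H) :
    tn C a b * tn C a' b' = tn C (a * a') (b * b') := by
  unfold tn
  rw [cj_mul hC, TensorProduct.mapL_mul]

theorem tn_tn {C : H ≃ₗᵢ⋆[ℂ] H} (hC : IsConj C) (a b a' b' : H →L[ℂ] H) (x : H ⊗[ℂ] H) :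
    tn C a b (tn C a' b' x) = tn C (a * a') (b * b') x := by
  rw [← tn_mul hC]; rfl

theorem tn_tmul (C : H ≃ₗᵢ⋆[ℂ] H) (a b : H →L[ℂ] H) (x y : H) :
    tn C a b (x ⊗ₜ y) = a x ⊗ₜ cj C b y := rfl

theorem tn_add_left (C : H ≃ₗᵢ⋆[ℂ] H) (a a' b : H →L[ℂ] H) :
    tn C (a + a') b = tn C a b + tn C a' b := TensorProduct.mapL_add_left _ _ _

theorem tn_smul_left (C : H ≃ₗᵢ⋆[ℂ] H) (c : ℂ) (a b : H →L[ℂ] H) :
    tn C (c • a) b = c • tn C a b := TensorProduct.mapL_smul_left _ _ _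

theorem inner_cj [CompleteSpace H] {C : H ≃ₗᵢ⋆[ℂ] H} (hC : IsConj C) (b : H →L[ℂ] H) (x y : H) :
    ⟪cj C b x, y⟫_ℂ = ⟪x, cj C (star b) y⟫_ℂ := by
  rw [cj_apply, cj_apply]
  conv_lhs => rw [← hC y]
  rw [inner_C, ContinuousLinearMap.star_eq_adjoint]
  conv_rhs => rw [← hC x]
  rw [inner_C, ContinuousLinearMap.adjoint_inner_left]

theorem inner_tn [CompleteSpace H] {C : H ≃ₗᵢ⋆[ℂ] H} (hC : IsConj C) (a b : H →L[ℂ] H)
    (x y : H ⊗[ℂ] H) : ⟪tn C a b x, y⟫_ℂ = ⟪x, tn C (star a) (star b) y⟫_ℂ := by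
  induction x using TensorProduct.induction_on with
  | zero => simp
  | add x x' hx hx' => rw [map_add, inner_add_left, inner_add_left, hx, hx']
  | tmul p r =>
    induction y using TensorProduct.induction_on with
    | zero => simp
    | add y y' hy hy' => rw [map_add, inner_add_right, inner_add_right, hy, hy']
    | tmul s t =>
      rw [tn_tmul, tn_tmul, TensorProduct.inner_tmul, TensorProduct.inner_tmul, inner_cj hC,
        ContinuousLinearMap.star_eq_adjoint a, ContinuousLinearMap.adjoint_inner_right]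

theorem norm_one_le' : ‖(1 : H →L[ℂ] H)‖ ≤ 1 := ContinuousLinearMap.norm_id_le

variable [CompleteSpace H]

theorem norm_pr {q : H →L[ℂ] H} (hq : IsPr q) : ‖q‖ ≤ 1 := by
  have h : ‖star q * q‖ = ‖q‖ * ‖q‖ := CStarRing.norm_star_mul_self
  rw [hq.1, hq.2] at h
  by_contra hc
  push Not at hc
  nlinarith

theorem norm_le_of {u q : H →L[ℂ] H} (hq : IsPr q) (h : star u * u = q) : ‖u‖ ≤ 1 := by
  have h1 : ‖star u * u‖ = ‖u‖ * ‖u‖ := CStarRing.norm_star_mul_self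
  rw [h] at h1
  have := norm_pr hq
  nlinarith [norm_nonneg u]

theorem mul_q {u q : H →L[ℂ] H} (hq : IsPr q) (h : star u * u = q) : u * q = u := by
  have e : star (u - u * q) * (u - u * q) = 0 := by
    rw [star_sub, star_mul, hq.1]
    have : (star u - q * star u) * (u - u * q) = star u * u - star u * u * q - q * (star u * u)
        + q * (star u * u) * q := by noncomm_ring
    rw [this, h, hq.2, hq.2]
    simp
  have := (CStarRing.star_mul_self_eq_zero_iff _).1 e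
  exact (sub_eq_zero.1 this).symm

end basic

section vec

variable {H : Type} [NormedAddCommGroup H] [InnerProductSpace ℂ H] [CompleteSpace H]

/-- unitaries of the corner -/
def Gd (M : VonNeumannAlgebra H) (q u : H →L[ℂ] H) : Prop :=
  u ∈ M ∧ star u * u = q ∧ u * star u = q

theorem exists_vec {C : H ≃ₗᵢ⋆[ℂ] H} (hC : IsConj C) (M : VonNeumannAlgebra H)
    {q : H →L[ℂ] H} (hqM : q ∈ M) (hq : IsPr q)
    (hyp : ∀ (n : ℕ) (u : Fin n → (H →L[ℂ] H)), (∀ i, u i ∈ M ∧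
      star (u i) * u i = q ∧ u i * star (u i) = q) → (n : ℝ) ≤ ‖∑ i, tn C (u i) (u i)‖)
    (F : Finset (H →L[ℂ] H)) (hF : ∀ u ∈ F, Gd M q u) (ε : ℝ) (hε : 0 < ε) :
    ∃ h : H ⊗[ℂ] H, ‖h‖ ≤ 1 ∧ 1 - ε ≤ ‖h‖ ∧ tn C q q h = h ∧ ∀ u ∈ F, ‖tn C u u h - h‖ ≤ ε := by
  classical
  set G := insert q F with hG
  have hGd : ∀ u ∈ G, Gd M q u := by
    intro u hu
    rcases Finset.mem_insert.1 hu with rfl | hu
    · exact ⟨hqM, by rw [hq.1, hq.2], by rw [hq.1, hq.2]⟩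
    · exact hF u hu
  have hqG : q ∈ G := Finset.mem_insert_self _ _
  have hn : (G.card : ℝ) ≤ ‖∑ u ∈ G, tn C u u‖ := by
    have := hyp G.card (fun i => (G.equivFin.symm i : H →L[ℂ] H))
      (fun i => hGd _ (G.equivFin.symm i).2)
    have e : ∑ i, tn C (G.equivFin.symm i : H →L[ℂ] H) (G.equivFin.symm i : H →L[ℂ] H)
        = ∑ u ∈ G, tn C u u := by
      rw [← Finset.sum_coe_sort G (fun u => tn C u u)]
      exact Fintype.sum_equiv G.equivFin.symm _ _ (fun i => rfl)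
    rwa [e] at this
  set δ := min (ε ^ 2 / 8) (1 / 2) with hδ
  have hδ0 : 0 < δ := lt_min (by positivity) (by norm_num)
  have hδ1 : δ ≤ 1 / 2 := min_le_right _ _
  have hδ2 : δ ≤ ε ^ 2 / 8 := min_le_left _ _
  obtain ⟨h, hh1, hh2⟩ := ContinuousLinearMap.exists_lt_apply_of_lt_opNorm
    (∑ u ∈ G, tn C u u) (r := (G.card : ℝ) - δ) (by linarith)
  set w := (∑ u ∈ G, tn C u u) h with hw
  have hcard : (1 : ℝ) ≤ G.card := by exact_mod_cast Finset.card_pos.2 ⟨q, hqG⟩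
  have hwpos : 0 < ‖w‖ := by linarith
  set k : H ⊗[ℂ] H := ((‖w‖⁻¹ : ℝ) : ℂ) • w with hk
  have hk1 : ‖k‖ = 1 := by
    rw [hk, norm_smul]
    simp only [Complex.norm_real, norm_inv, norm_norm]
    exact inv_mul_cancel₀ hwpos.ne'
  have hkw : (⟪k, w⟫_ℂ).re = ‖w‖ := by
    rw [hk, inner_smul_left (𝕜 := ℂ) (E := H ⊗[ℂ] H),
      inner_self_eq_norm_sq_to_K (𝕜 := ℂ) (E := H ⊗[ℂ] H), Complex.conj_ofReal]
    have : ((‖w‖⁻¹ : ℝ) : ℂ) * ((‖w‖ : ℝ) : ℂ) ^ 2 = ((‖w‖ : ℝ) : ℂ) := by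
      rw [← Complex.ofReal_pow, ← Complex.ofReal_mul]
      congr 1
      field_simp
    refine (congrArg Complex.re this).trans ?_
    exact Complex.ofReal_re _
  have hnt : ∀ u ∈ G, ‖tn C u u h‖ ≤ 1 := by
    intro u hu
    have h1 := (tn C u u).le_opNorm h
    have h2 := norm_tn C u u
    have h3 := norm_le_of hq (hGd u hu).2.1
    calc ‖tn C u u h‖ ≤ ‖tn C u u‖ * ‖h‖ := h1
      _ ≤ (1 * 1) * 1 := by
        refine mul_le_mul (h2.trans (mul_le_mul h3 h3 (norm_nonneg _) zero_le_one)) hh1.le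
          (norm_nonneg _) (by norm_num)
      _ = 1 := by norm_num
  have hsum : (⟪k, w⟫_ℂ).re = ∑ u ∈ G, (⟪k, tn C u u h⟫_ℂ).re := by
    rw [hw, ContinuousLinearMap.sum_apply, inner_sum, Complex.re_sum]
  have hle : ∀ u ∈ G, (⟪k, tn C u u h⟫_ℂ).re ≤ 1 := by
    intro u hu
    refine (Complex.re_le_norm _).trans
      ((norm_inner_le_norm (𝕜 := ℂ) (E := H ⊗[ℂ] H) _ _).trans ?_)
    rw [hk1, one_mul]
    exact hnt u hu
  have hge : ∀ u ∈ G, 1 - δ ≤ (⟪k, tn C u u h⟫_ℂ).re := by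
    intro u hu
    have h1 := Finset.sum_erase_add G (fun u => (⟪k, tn C u u h⟫_ℂ).re) hu
    have h2 : ∑ v ∈ G.erase u, (⟪k, tn C v v h⟫_ℂ).re ≤ (G.card : ℝ) - 1 := by
      have h3 : ∑ v ∈ G.erase u, (⟪k, tn C v v h⟫_ℂ).re ≤ ∑ v ∈ G.erase u, (1 : ℝ) :=
        Finset.sum_le_sum fun v hv => hle v (Finset.mem_of_mem_erase hv)
      rw [Finset.sum_const, Finset.card_erase_of_mem hu, nsmul_eq_mul, mul_one,
        Nat.cast_sub (Finset.card_pos.2 ⟨u, hu⟩)] at h3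
      simpa using h3
    linarith
  have hdist : ∀ u ∈ G, ‖k - tn C u u h‖ ≤ ε / 2 := by
    intro u hu
    have h1 := norm_sub_sq (𝕜 := ℂ) k (tn C u u h)
    have h2 := hge u hu
    have h3 := hnt u hu
    have h4 : RCLike.re ⟪k, tn C u u h⟫_ℂ = (⟪k, tn C u u h⟫_ℂ).re := rfl
    rw [h4, hk1] at h1
    have h5 : ‖tn C u u h‖ ^ 2 ≤ 1 := by
      have := norm_nonneg (tn C u u h)
      nlinarith
    have h6 : ‖k - tn C u u h‖ ^ 2 ≤ (ε / 2) ^ 2 := by nlinarith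
    exact abs_le_of_sq_le_sq' h6 (by positivity) |>.2
  refine ⟨tn C q q h, hnt q hqG, ?_, ?_, ?_⟩
  · have h1 := norm_sub_norm_le k (tn C q q h)
    have h2 := hdist q hqG
    linarith
  · rw [tn_tn hC, hq.2]
  · intro u hu
    have huG : u ∈ G := Finset.mem_insert_of_mem hu
    have h1 : tn C u u (tn C q q h) = tn C u u h := by
      rw [tn_tn hC, mul_q hq (hGd u huG).2.1]
    rw [h1]
    have h2 := hdist u huG
    have h3 := hdist q hqG
    calc ‖tn C u u h - tn C q q h‖ = ‖(k - tn C q q h) - (k - tn C u u h)‖ := by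
          congr 1; abel
      _ ≤ ‖k - tn C q q h‖ + ‖k - tn C u u h‖ := norm_sub_le _ _
      _ ≤ ε := by linarith

/-- the vector functional -/
def ps (C : H ≃ₗᵢ⋆[ℂ] H) (h : H ⊗[ℂ] H) (x : H →L[ℂ] H) : ℂ := ⟪h, tn C x 1 h⟫_ℂ

theorem ps_add (C : H ≃ₗᵢ⋆[ℂ] H) (h : H ⊗[ℂ] H) (x y : H →L[ℂ] H) :
    ps C h (x + y) = ps C h x + ps C h y := by
  unfold ps
  rw [tn_add_left, ContinuousLinearMap.add_apply, inner_add_right]

theorem ps_smul (C : H ≃ₗᵢ⋆[ℂ] H) (h : H ⊗[ℂ] H) (c : ℂ) (x : H →L[ℂ] H) :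
    ps C h (c • x) = c * ps C h x := by
  unfold ps
  rw [tn_smul_left, ContinuousLinearMap.smul_apply, inner_smul_right]

theorem norm_tn1 (C : H ≃ₗᵢ⋆[ℂ] H) (x : H →L[ℂ] H) : ‖tn C x 1‖ ≤ ‖x‖ := by
  refine (norm_tn C x 1).trans ?_
  have := norm_one_le' (H := H)
  nlinarith [norm_nonneg x]

theorem norm_tn1' (C : H ≃ₗᵢ⋆[ℂ] H) (x : H →L[ℂ] H) : ‖tn C 1 x‖ ≤ ‖x‖ := by
  refine (norm_tn C 1 x).trans ?_
  have := norm_one_le' (H := H)
  nlinarith [norm_nonneg x]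

theorem norm_ps (C : H ≃ₗᵢ⋆[ℂ] H) {h : H ⊗[ℂ] H} (hh : ‖h‖ ≤ 1) (x : H →L[ℂ] H) :
    ‖ps C h x‖ ≤ ‖x‖ := by
  unfold ps
  refine (norm_inner_le_norm (𝕜 := ℂ) (E := H ⊗[ℂ] H) _ _).trans ?_
  have h1 := (tn C x 1).le_opNorm h
  have h2 := norm_tn1 C x
  have h3 : ‖tn C x 1 h‖ ≤ ‖x‖ := by
    refine h1.trans ?_
    have := mul_le_mul h2 hh (norm_nonneg _) (norm_nonneg _)
    linarith
  have := mul_le_mul hh h3 (norm_nonneg _) zero_le_one
  linarith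

theorem ps_pos {C : H ≃ₗᵢ⋆[ℂ] H} (hC : IsConj C) (h : H ⊗[ℂ] H) (x : H →L[ℂ] H) :
    0 ≤ ps C h (star x * x) := by
  have : ps C h (star x * x) = ⟪tn C x 1 h, tn C x 1 h⟫_ℂ := by
    rw [inner_tn hC, tn_tn hC, star_one, mul_one]
    rfl
  rw [this, inner_self_eq_norm_sq_to_K (𝕜 := ℂ) (E := H ⊗[ℂ] H)]
  have h2 : ((‖tn C x 1 h‖ : ℝ) : ℂ) ^ 2 = ((‖tn C x 1 h‖ ^ 2 : ℝ) : ℂ) := by
    rw [Complex.ofReal_pow]
  have h3 : (0 : ℂ) ≤ ((‖tn C x 1 h‖ ^ 2 : ℝ) : ℂ) := Complex.zero_le_real.2 (by positivity)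
  rw [← h2] at h3
  exact h3

theorem tnq {C : H ≃ₗᵢ⋆[ℂ] H} (hC : IsConj C) {q : H →L[ℂ] H} (hq : IsPr q) {h : H ⊗[ℂ] H}
    (hh : tn C q q h = h) : tn C q 1 h = h := by
  conv_lhs => rw [← hh, tn_tn hC, hq.2, one_mul]
  exact hh

theorem tnq' {C : H ≃ₗᵢ⋆[ℂ] H} (hC : IsConj C) {q : H →L[ℂ] H} (hq : IsPr q) {h : H ⊗[ℂ] H}
    (hh : tn C q q h = h) : tn C 1 q h = h := by
  conv_lhs => rw [← hh, tn_tn hC, hq.2, one_mul]
  exact hh

theorem ps_q {C : H ≃ₗᵢ⋆[ℂ] H} (hC : IsConj C) {q : H →L[ℂ] H} (hq : IsPr q) {h : H ⊗[ℂ] H}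
    (hh : tn C q q h = h) (x : H →L[ℂ] H) : ps C h (q * x * q) = ps C h x := by
  have h1 := tnq hC hq hh
  have e : tn C (q * x * q) 1 h = tn C q 1 (tn C x 1 (tn C q 1 h)) := by
    rw [tn_tn hC, tn_tn hC, one_mul, one_mul, mul_assoc]
  have e2 : star (1 : H →L[ℂ] H) = 1 := star_one _
  have e3 : ⟪h, tn C q 1 (tn C x 1 h)⟫_ℂ = ⟪tn C q 1 h, tn C x 1 h⟫_ℂ := by
    rw [inner_tn hC, hq.1, e2]
  unfold ps
  rw [e, h1, e3, h1]

theorem ps_qq {C : H ≃ₗᵢ⋆[ℂ] H} (hC : IsConj C) {q : H →L[ℂ] H} (hq : IsPr q) {h : H ⊗[ℂ] H}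
    (hh : tn C q q h = h) : ps C h q = ((‖h‖ ^ 2 : ℝ) : ℂ) := by
  unfold ps
  rw [tnq hC hq hh, inner_self_eq_norm_sq_to_K (𝕜 := ℂ) (E := H ⊗[ℂ] H)]
  simp

theorem ps_inv {C : H ≃ₗᵢ⋆[ℂ] H} (hC : IsConj C) {M : VonNeumannAlgebra H} {q : H →L[ℂ] H}
    (hq : IsPr q) {h : H ⊗[ℂ] H} (hh1 : ‖h‖ ≤ 1)
    (hh : tn C q q h = h) {u : H →L[ℂ] H} (hu : Gd M q u) {ε : ℝ}
    (he : ‖tn C u u h - h‖ ≤ ε) (x : H →L[ℂ] H) :
    ‖ps C h (u * x * star u) - ps C h x‖ ≤ 2 * ‖x‖ * ε := by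
  have hε : 0 ≤ ε := (norm_nonneg _).trans he
  have hq1 := tnq hC hq hh
  have hq2 := tnq' hC hq hh
  have hu1 : ‖u‖ ≤ 1 := norm_le_of hq hu.2.1
  have hus : ‖star u‖ ≤ 1 := by rw [norm_star]; exact hu1
  set g := tn C (star u) 1 h with hg
  set g' := tn C 1 u h with hg'
  have e2 : star (1 : H →L[ℂ] H) = 1 := star_one _
  have hgn : ‖g‖ ≤ 1 := by
    have h1 := (tn C (star u) 1).le_opNorm h
    have h2 := norm_tn1 C (star u)
    have := mul_le_mul (h2.trans hus) hh1 (norm_nonneg _) zero_le_one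
    linarith
  have hgn' : ‖g'‖ ≤ 1 := by
    have h1 := (tn C 1 u).le_opNorm h
    have h2 := norm_tn1' C u
    have := mul_le_mul (h2.trans hu1) hh1 (norm_nonneg _) zero_le_one
    linarith
  have hgg : ‖g - g'‖ ≤ ε := by
    have e : g' = tn C (star u) 1 (tn C u u h) := by
      rw [tn_tn hC, hu.2.1, one_mul, hg']
      conv_lhs => rw [← hq1, tn_tn hC, one_mul, mul_one]
    have e' : g - g' = - tn C (star u) 1 (tn C u u h - h) := by
      rw [map_sub, ← e, hg]; abel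
    rw [e', norm_neg]
    have h1 := (tn C (star u) 1).le_opNorm (tn C u u h - h)
    have h2 := norm_tn1 C (star u)
    have := mul_le_mul (h2.trans hus) he (norm_nonneg _) zero_le_one
    linarith
  have k1 : ps C h (u * x * star u) = ⟪g, tn C x 1 g⟫_ℂ := by
    unfold ps
    rw [hg, inner_tn hC, star_star, e2, tn_tn hC, tn_tn hC, one_mul, one_mul, mul_assoc]
  have k2 : ps C h x = ⟪g', tn C x 1 g'⟫_ℂ := by
    unfold ps
    rw [hg', inner_tn hC, e2, tn_tn hC, tn_tn hC, one_mul, mul_one, mul_one, hu.2.1]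
    conv_lhs => rw [← hq2, tn_tn hC, mul_one, one_mul]
    rw [hq2]
  have k3 : ⟪g, tn C x 1 g⟫_ℂ - ⟪g', tn C x 1 g'⟫_ℂ
      = ⟪g - g', tn C x 1 g⟫_ℂ + ⟪g', tn C x 1 (g - g')⟫_ℂ := by
    rw [inner_sub_left, map_sub, inner_sub_right]; ring
  rw [k1, k2, k3]
  have b1 : ‖⟪g - g', tn C x 1 g⟫_ℂ‖ ≤ ε * ‖x‖ := by
    refine (norm_inner_le_norm _ _).trans (mul_le_mul hgg ?_ (norm_nonneg _) hε)
    have h1 := (tn C x 1).le_opNorm g
    have h2 := norm_tn1 C x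
    have := mul_le_mul h2 hgn (norm_nonneg _) (norm_nonneg _)
    linarith
  have b2 : ‖⟪g', tn C x 1 (g - g')⟫_ℂ‖ ≤ 1 * (‖x‖ * ε) := by
    refine (norm_inner_le_norm _ _).trans (mul_le_mul hgn' ?_ (norm_nonneg _) zero_le_one)
    have h1 := (tn C x 1).le_opNorm (g - g')
    have h2 := norm_tn1 C x
    exact h1.trans (mul_le_mul h2 hgg (norm_nonneg _) (norm_nonneg _))
  calc _ ≤ _ := norm_add_le _ _
    _ ≤ 2 * ‖x‖ * ε := by linarith

end vec


theorem ev_mem (S : Type) (s : S) : ∀ᶠ i : Finset S × ℕ in Filter.atTop, s ∈ i.1 := by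
  have h1 := Filter.eventually_ge_atTop (({s}, 0) : Finset S × ℕ)
  refine h1.mono fun i hi => ?_
  have h2 : ({s} : Finset S) ≤ i.1 := (Prod.le_def.1 hi).1
  exact h2 (Finset.mem_singleton_self s)

theorem lim_abs (S A : Type) [AddCommMonoid A] [Module ℂ A] (f : Finset S × ℕ → A → ℂ)
    (b : A → ℝ) (hb : ∀ i x, ‖f i x‖ ≤ b x) (ha : ∀ i x y, f i (x + y) = f i x + f i y)
    (hs : ∀ i (r : ℂ) x, f i (r • x) = r * f i x) :
    ∃ (c : A →ₗ[ℂ] ℂ) (U : Ultrafilter (Finset S × ℕ)), (U : Filter (Finset S × ℕ)) ≤ Filter.atTop ∧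
      ∀ x, Filter.Tendsto (fun i => f i x) U (nhds (c x)) := by
  classical
  let U : Ultrafilter (Finset S × ℕ) := Ultrafilter.of Filter.atTop
  have hU : (U : Filter (Finset S × ℕ)) ≤ Filter.atTop := Ultrafilter.of_le _
  have hlim : ∀ x : A, ∃ c : ℂ, Filter.Tendsto (fun i => f i x) U (nhds c) := by
    intro x
    obtain ⟨c, -, hc⟩ := (isCompact_closedBall (0 : ℂ) (b x)).ultrafilter_le_nhds
      (U.map (fun i => f i x)) (by
        rw [Filter.le_principal_iff]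
        refine Filter.mem_map.2 (Filter.univ_mem' fun i => ?_)
        show f i x ∈ Metric.closedBall (0 : ℂ) (b x)
        rw [mem_closedBall_zero_iff]
        exact hb i x)
    exact ⟨c, hc⟩
  choose c hc using hlim
  refine ⟨{ toFun := c, map_add' := ?_, map_smul' := ?_ }, U, hU, hc⟩
  · intro x y
    refine tendsto_nhds_unique (hc (x + y)) ?_
    refine ((hc x).add (hc y)).congr fun i => ?_
    rw [ha]
  · intro r x
    refine tendsto_nhds_unique (hc (r • x)) ?_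
    refine ((hc x).const_mul r).congr fun i => ?_
    rw [hs]

theorem tendsto_sq1 {I : Type} (U : Filter I) (f : I → ℝ) (hf : Filter.Tendsto f U (nhds 1)) :
    Filter.Tendsto (fun i => ((f i ^ 2 : ℝ) : ℂ)) U (nhds 1) := by
  have e2 : Filter.Tendsto (fun i => f i ^ 2) U (nhds (1 ^ 2)) := hf.pow 2
  rw [one_pow] at e2
  have e3 := (Complex.continuous_ofReal.tendsto 1).comp e2
  rw [Complex.ofReal_one] at e3
  exact e3

theorem tendsto_inv_snd (S : Type) (U : Ultrafilter (Finset S × ℕ))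
    (hU : (U : Filter (Finset S × ℕ)) ≤ Filter.atTop) :
    Filter.Tendsto (fun i : Finset S × ℕ => 1 / ((i.2 : ℝ) + 1)) U (nhds 0) := by
  have : Filter.Tendsto (fun i : Finset S × ℕ => i.2) Filter.atTop Filter.atTop := by
    rw [← Filter.prod_atTop_atTop_eq]
    exact Filter.tendsto_snd
  exact (tendsto_one_div_add_atTop_nhds_zero_nat.comp this).mono_left hU

end ZZ89

open ZZ89 in
theorem bp_state : Z_state := by
  intro H _ _ _ C hC M q hqM hq hq0 hyp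
  classical
  have hex : ∀ i : Finset {u : H →L[ℂ] H // Gd M q u} × ℕ, ∃ h : H ⊗[ℂ] H, ‖h‖ ≤ 1 ∧
      1 - 1 / ((i.2 : ℝ) + 1) ≤ ‖h‖ ∧
      tn C q q h = h ∧ ∀ u : {u : H →L[ℂ] H // Gd M q u}, u ∈ i.1 →
        ‖tn C (u : H →L[ℂ] H) u h - h‖ ≤ 1 / ((i.2 : ℝ) + 1) := by
    intro i
    obtain ⟨h, h1, h2, h3, h4⟩ := exists_vec hC M hqM hq hyp (i.1.image Subtype.val)
      (by
        intro u hu
        obtain ⟨v, -, rfl⟩ := Finset.mem_image.1 hu
        exact v.2) (1 / ((i.2 : ℝ) + 1)) (by positivity)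
    exact ⟨h, h1, h2, h3, fun u hu => h4 u (Finset.mem_image_of_mem _ hu)⟩
  choose h h1 h2 h3 h4 using hex
  obtain ⟨c, U, hU, hc⟩ := lim_abs {u : H →L[ℂ] H // Gd M q u} (H →L[ℂ] H)
    (fun i x => ps C (h i) x) (fun x => ‖x‖) (fun i x => norm_ps C (h1 i) x)
    (fun i x y => ps_add C (h i) x y) (fun i r x => ps_smul C (h i) r x)
  have hn := tendsto_inv_snd _ U hU
  refine ⟨c, ?_, ?_, ?_, ?_⟩
  · intro x
    have hx := hc (star x * x)
    rw [Complex.nonneg_iff]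
    constructor
    · refine ge_of_tendsto' ((Complex.continuous_re.tendsto _).comp hx) fun i => ?_
      exact (Complex.nonneg_iff.1 (ps_pos hC (h i) x)).1
    · have e := (Complex.continuous_im.tendsto _).comp hx
      refine tendsto_nhds_unique (tendsto_const_nhds (x := (0 : ℝ))) (e.congr fun i => ?_)
      exact (Complex.nonneg_iff.1 (ps_pos hC (h i) x)).2.symm
  · refine tendsto_nhds_unique (hc q) ?_
    have e : Filter.Tendsto (fun i => ‖h i‖) U (nhds 1) := by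
      have e0 : Filter.Tendsto (fun i : Finset {u : H →L[ℂ] H // Gd M q u} × ℕ =>
          1 - 1 / ((i.2 : ℝ) + 1)) U (nhds 1) := by
        have := hn.const_sub 1
        simpa using this
      exact tendsto_of_tendsto_of_tendsto_of_le_of_le e0 tendsto_const_nhds h2 h1
    exact (tendsto_sq1 _ _ e).congr fun i => (ps_qq hC hq (h3 i)).symm
  · intro x
    refine tendsto_nhds_unique (hc (q * x * q)) ((hc x).congr fun i => ?_)
    exact (ps_q hC hq (h3 i) x).symm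
  · intro u huM hu1 hu2 x
    have hu : Gd M q u := ⟨huM, hu1, hu2⟩
    have e1 : Filter.Tendsto (fun i => ps C (h i) (u * x * star u) - ps C (h i) x) U
        (nhds (c (u * x * star u) - c x)) := (hc _).sub (hc _)
    have hev : ∀ᶠ i in (U : Filter _), ‖ps C (h i) (u * x * star u) - ps C (h i) x‖
          ≤ 2 * ‖x‖ * (1 / ((i.2 : ℝ) + 1)) := by
      have h5 := (ev_mem {u : H →L[ℂ] H // Gd M q u} ⟨u, hu⟩).filter_mono hU
      refine h5.mono fun i hi => ?_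
      have h6 := h4 i ⟨u, hu⟩ hi
      exact ps_inv hC hq (h1 i) (h3 i) hu h6 x
    have hz : Filter.Tendsto (fun i : Finset {u : H →L[ℂ] H // Gd M q u} × ℕ =>
        2 * ‖x‖ * (1 / ((i.2 : ℝ) + 1))) U (nhds 0) := by
      have := hn.const_mul (2 * ‖x‖)
      simpa using this
    have e2 : Filter.Tendsto (fun i => ps C (h i) (u * x * star u) - ps C (h i) x) U (nhds 0) :=
      squeeze_zero_norm' hev hz
    exact sub_eq_zero.1 (tendsto_nhds_unique e1 e2)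

end H97R2.BP
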